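import Pool.Agent.helper77.PV.SpecK

/-!
# Row pvk:KSX: the invariant of the extension
-/

set_option autoImplicit false

open scoped Matrix Topology
open Filter

namespace Pool.Agent.PV

open Pool.Agent.CZ Pool.Agent.PVH

/-- the pairing with the restriction of a tracial state -/
theorem KSX_pair {A A₀ : Type} [CStarAlgebra A] [CStarAlgebra A₀] (Φ : A₀ →⋆ₐ[ℂ] A) (t : TracialState A)
    (t₀ : TracialState A₀) (h : ∀ a, t.τ (Φ a) = t₀.τ a) (x : K0 A₀) :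
    pair t (k0map Φ.toAlgHom.toRingHom x) = pair t₀ x := by
  induction x using QuotientAddGroup.induction_on with
  | H z =>
    have h1 : ((pair t).comp ((k0map Φ.toAlgHom.toRingHom).comp (QuotientAddGroup.mk' _))) =
        (pair t₀).comp (QuotientAddGroup.mk' _) := by
      refine FreeAbelianGroup.lift_ext _ _ fun p => ?_
      change (FreeAbelianGroup.lift (fun p : IdemMat A => ∑ i, t.τ (p.e i i)))
          (FreeAbelianGroup.map (imap Φ.toAlgHom.toRingHom) (FreeAbelianGroup.of p)) =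
        (FreeAbelianGroup.lift (fun p : IdemMat A₀ => ∑ i, t₀.τ (p.e i i))) (FreeAbelianGroup.of p)
      rw [FreeAbelianGroup.map_of_apply, FreeAbelianGroup.lift_apply_of,
        FreeAbelianGroup.lift_apply_of]
      exact Finset.sum_congr rfl fun i _ => h (p.e i i)
    exact congrArg (fun f => f z) h1

theorem KSX (hKTR : KTR_stmt) (hKTA : KTA_stmt) (hKPZ : KPZ_stmt) (hKDS : KDS_stmt) (hFUN : FUN_stmt) : KSX_stmt := by
  intro X₀ Y X _ _ _ _ _ _ _ _ _ _ _ α₀ α π e r hE hm₀ hm A A₀ _ _ ι u c ι₀ u₀ c₀ hC hC₀ Φ hΦι hΦu hΦc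
    y S₀ S₁ _ _ σ₀ σ₁ G₀ _ g G₁ _ E _ _ _ K ρ hI
  obtain ⟨φ, ψ, τ, hφ, hτ, haff, hpair⟩ := hI
  have hΦ : Continuous Φ.toAlgHom.toRingHom :=
    AddMonoidHomClass.continuous_of_bound Φ 1 (fun x => by
      rw [one_mul]
      exact NonUnitalStarAlgHom.norm_apply_le Φ x)
  have hι : Continuous ι.toAlgHom.toRingHom :=
    AddMonoidHomClass.continuous_of_bound ι 1 (fun x => by
      rw [one_mul]
      exact NonUnitalStarAlgHom.norm_apply_le ι x)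
  have hr : Continuous (ι.toAlgHom.comp (r 0)).toRingHom := hι.comp (hE.ms.cr 0)
  obtain ⟨a1, a2, a3, a4⟩ := hKTA X₀ Y X α₀ α π e r hE A A₀ ι u c ι₀ u₀ c₀ hC hC₀ Φ hΦι hΦu y hΦ hr
  obtain ⟨τ', hτ', hext, haff'⟩ := hKTR X₀ Y X α₀ α π e r hE hm₀ hm A A₀ ι u c ι₀ u₀ c₀ hC hC₀ Φ hΦι hΦc
    E K τ hτ haff
  obtain ⟨f0, hf0, hf0'⟩ := hKDS (K0 A₀) (K0 A) (K0 C(Y, ℂ)) (K0 ℂ) (k0map Φ.toAlgHom.toRingHom)
    (k0map (ι.toAlgHom.comp (r 0)).toRingHom) (k0map (evC ℂ y).toRingHom)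
    (fun z => by
      obtain ⟨x, s, h1, h2⟩ := a1 z
      exact ⟨x, s, h1, h2⟩)
    (fun x s h1 h2 => a2 x s h1 h2) S₀ σ₀
  have hk : (0 : K1 C(Y, ℂ) →+ ℤ).ker = ⊤ := AddMonoidHom.ker_zero
  obtain ⟨f1, hf1, hf1'⟩ := hKDS (K1 A₀) (K1 A) (K1 C(Y, ℂ)) ℤ (k1map Φ.toAlgHom.toRingHom hΦ)
    (k1map (ι.toAlgHom.comp (r 0)).toRingHom hr) (0 : K1 C(Y, ℂ) →+ ℤ)
    (fun z => by
      obtain ⟨x, s, h2⟩ := a3 z
      exact ⟨x, s, rfl, h2⟩)
    (fun x s _ h2 => a4 x s h2) S₁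
    (((AddEquiv.addSubgroupCongr hk).trans AddSubgroup.topEquiv).trans σ₁)
  refine ⟨f0.trans (AddEquiv.prodCongr φ (AddEquiv.refl S₀)),
    f1.trans (AddEquiv.prodCongr ψ (AddEquiv.refl S₁)), τ', ?_, hτ', haff', ?_⟩
  · have h1 : unitCls A = k0map Φ.toAlgHom.toRingHom (unitCls A₀) :=
      (hFUN.2.2.1 A₀ A Φ.toAlgHom.toRingHom).symm
    rw [h1]
    change (AddEquiv.prodCongr φ (AddEquiv.refl S₀)) (f0 (k0map Φ.toAlgHom.toRingHom (unitCls A₀))) = _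
    rw [hf0]
    change (φ (unitCls A₀), (0 : S₀)) = (g, 0)
    rw [hφ]
  · intro t z
    obtain ⟨x, s, h1, h2⟩ := a1 z
    have h3 : f0 z = (x, σ₀ ⟨s, h1⟩) := by
      rw [h2, map_add, hf0, hf0' s h1, Prod.mk_add_mk, add_zero, zero_add]
    have h4 : pair (τ' t) z = pair (τ t) x := by
      rw [h2, map_add, KSX_pair Φ (τ' t) (τ t) (hext t),
        hKPZ X Y α A ι u hC.cov (r 0) (τ' t) y s h1, add_zero]
    rw [h4, hpair]
    change ((ρ (φ x) t : ℝ) : ℂ) = ((ρ ((AddEquiv.prodCongr φ (AddEquiv.refl S₀)) (f0 z)).1 t : ℝ) : ℂ)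
    rw [h3]
    rfl

end Pool.Agent.PV
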