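import Pool.Agent.helper77.PV.SpecB

/-!
# Row pv:SHF

`X ↦ X u` adds `|ι| [1]` to the class of the spectral idempotent of the linearisation.
-/

set_option autoImplicit false

open scoped Matrix Topology
open Filter

namespace Pool.Agent.PV

open Pool.Agent.CZ

attribute [local instance] Matrix.linftyOpNormedRing Matrix.linftyOpNormedAlgebra

/-- renaming the indices does not change the class -/
theorem SHF_rename (hK0E : K0E_stmt) {B : Type} [Ring B] {κ κ' : Type} [Fintype κ] [Fintype κ']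
    (f : κ ≃ κ') (e : Matrix κ κ B) (he : e * e = e) (e' : Matrix κ' κ' B) (he' : e' * e' = e')
    (h : e' = e.submatrix f.symm f.symm) : k0 e' he' = k0 e he := by
  subst h
  refine hK0E B κ' κ _ e he' he (e.submatrix f.symm (Equiv.refl κ))
    (e.submatrix (Equiv.refl κ) f.symm) ?_ ?_
  · rw [Matrix.submatrix_mul_equiv, he]
  · rw [Matrix.submatrix_mul_equiv, he]
    rfl

/-- equal idempotents have equal classes -/
theorem SHF_congr {B : Type} [Ring B] {κ : Type} [Fintype κ] (e e' : Matrix κ κ B) (he : e * e = e)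
    (he' : e' * e' = e') (h : e = e') : k0 e he = k0 e' he' := by
  subst h
  rfl

/-- entries of a product with the diagonal matrix `u` -/
theorem SHF_mul_uM {A : Type} [Ring A] {κ : Type} [Fintype κ] [DecidableEq κ] (u : Aˣ)
    (M : Matrix κ κ A) (p q : κ) : (M * (uM κ u : Matrix κ κ A)) p q = M p q * (u : A) := by
  change (M * (Matrix.diagonal (fun _ => (u : A)) : Matrix κ κ A)) p q = _
  rw [Matrix.mul_diagonal]

/-- entries of the diagonal matrix `u` -/
theorem SHF_uM {A : Type} [Ring A] {κ : Type} [Fintype κ] [DecidableEq κ] (u : Aˣ) (p q : κ) :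
    (uM κ u : Matrix κ κ A) p q = if p = q then (u : A) else 0 := by
  change (Matrix.diagonal (fun _ => (u : A)) : Matrix κ κ A) p q = _
  rw [Matrix.diagonal_apply]

/-- entries of a linear matrix -/
theorem SHF_ent {B A : Type} [NormedRing B] [NormedAlgebra ℂ B] [NormedRing A] [NormedAlgebra ℂ A]
    (io : B →ₐ[ℂ] A) (u : Aˣ) {κ : Type} [Fintype κ] [DecidableEq κ] (a b : Matrix κ κ B)
    (L : (Matrix κ κ A)ˣ) (h : IsLin io u a b L) (p q : κ) :
    (L : Matrix κ κ A) p q = io (a p q) + io (b p q) * (u : A) := by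
  have h1 : (L : Matrix κ κ A) = a.map io + b.map io * (uM κ u : Matrix κ κ A) := h
  rw [h1, Matrix.add_apply, SHF_mul_uM]
  rfl

/-- the renaming of the indices: block 0 is split off -/
def SHF_f (d : ℕ) (ι : Type) : Fin (d + 1) × ι ≃ ι ⊕ (Fin d × ι) where
  toFun p := Fin.cases (Sum.inl p.2) (fun j => Sum.inr (j, p.2)) p.1
  invFun s := Sum.elim (fun a => (0, a)) (fun p => (p.1.succ, p.2)) s
  left_inv := by
    rintro ⟨i, a⟩
    refine Fin.cases ?_ (fun j => ?_) i
    · rfl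
    · rfl
  right_inv := by
    rintro (a | ⟨j, a⟩)
    · rfl
    · rfl

/-- the exchange of the rows 0 and 1 -/
def SHF_p (e : ℕ) (ι : Type) : (Fin (e + 2) × ι) ≃ (Fin (e + 2) × ι) :=
  Equiv.prodCongr (Equiv.swap (0 : Fin (e + 2)) (1 : Fin (e + 2))) (Equiv.refl ι)

/-- the permutation matrix as a unit -/
def SHF_s (R : Type) [Ring R] {κ : Type} [Fintype κ] [DecidableEq κ] (π : κ ≃ κ) :
    (Matrix κ κ R)ˣ where
  val := (1 : Matrix κ κ R).submatrix π (Equiv.refl κ)
  inv := (1 : Matrix κ κ R).submatrix (Equiv.refl κ) π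
  val_inv := by
    rw [Matrix.submatrix_mul_equiv, one_mul]
    exact Matrix.submatrix_one_equiv π
  inv_val := by
    rw [Matrix.submatrix_mul_equiv, one_mul]
    exact Matrix.submatrix_one_equiv (Equiv.refl κ)

/-- multiplication by the permutation matrix -/
theorem SHF_s_mul {R : Type} [Ring R] {κ : Type} [Fintype κ] [DecidableEq κ] (π : κ ≃ κ)
    (M : Matrix κ κ R) (p q : κ) : ((SHF_s R π : Matrix κ κ R) * M) p q = M (π p) q := by
  have h : (SHF_s R π : Matrix κ κ R) * M = M.submatrix π (Equiv.refl κ) := by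
    have h1 := Matrix.submatrix_mul_equiv (1 : Matrix κ κ R) M π (Equiv.refl κ) (Equiv.refl κ)
    rw [one_mul] at h1
    exact h1
  rw [h]
  rfl

/-- the image of the permutation matrix -/
theorem SHF_s_map {B A : Type} [Ring B] [Ring A] (φ : B →+* A) {κ : Type} [Fintype κ]
    [DecidableEq κ] (π : κ ≃ κ) : umap φ (SHF_s B π) = SHF_s A π := by
  refine Units.ext ?_
  change ((1 : Matrix κ κ B).submatrix π (Equiv.refl κ)).map φ =
    (1 : Matrix κ κ A).submatrix π (Equiv.refl κ)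
  ext p q
  rw [Matrix.map_apply, Matrix.submatrix_apply, Matrix.submatrix_apply, Matrix.one_apply,
    Matrix.one_apply]
  split_ifs
  · exact map_one φ
  · exact map_zero φ

/-- the block `(1, 0, .., 0)` -/
def SHF_C (R : Type) [Ring R] (d : ℕ) (ι : Type) [DecidableEq ι] : Matrix ι (Fin d × ι) R :=
  Matrix.of fun a q => if q.1.val = 0 ∧ a = q.2 then 1 else 0

/-- block triangular unit -/
def SHF_K {A : Type} [Ring A] {ι κ : Type} [Fintype ι] [DecidableEq ι] [Fintype κ]
    [DecidableEq κ] (v : (Matrix ι ι A)ˣ) (C : Matrix ι κ A) (L : (Matrix κ κ A)ˣ) :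
    (Matrix (ι ⊕ κ) (ι ⊕ κ) A)ˣ where
  val := Matrix.fromBlocks (v : Matrix ι ι A) C 0 (L : Matrix κ κ A)
  inv := Matrix.fromBlocks ((v⁻¹ : (Matrix ι ι A)ˣ) : Matrix ι ι A)
    (-(((v⁻¹ : (Matrix ι ι A)ˣ) : Matrix ι ι A) * C * ((L⁻¹ : (Matrix κ κ A)ˣ) : Matrix κ κ A))) 0
    ((L⁻¹ : (Matrix κ κ A)ˣ) : Matrix κ κ A)
  val_inv := by
    rw [Matrix.fromBlocks_multiply, ← Matrix.fromBlocks_one]
    congr 1
    · rw [Matrix.mul_zero, add_zero]
      exact Units.mul_inv v
    · rw [Matrix.mul_neg, Matrix.mul_assoc, ← Matrix.mul_assoc (v : Matrix ι ι A)]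
      have h : (v : Matrix ι ι A) * ((v⁻¹ : (Matrix ι ι A)ˣ) : Matrix ι ι A) = 1 := Units.mul_inv v
      rw [h, Matrix.one_mul, neg_add_cancel]
    · rw [Matrix.zero_mul, Matrix.mul_zero, add_zero]
    · rw [Matrix.zero_mul, zero_add]
      exact Units.mul_inv L
  inv_val := by
    rw [Matrix.fromBlocks_multiply, ← Matrix.fromBlocks_one]
    congr 1
    · rw [Matrix.mul_zero, add_zero]
      exact Units.inv_mul v
    · have h : ((L⁻¹ : (Matrix κ κ A)ˣ) : Matrix κ κ A) * (L : Matrix κ κ A) = 1 := Units.inv_mul L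
      rw [Matrix.neg_mul, Matrix.mul_assoc _ _ (L : Matrix κ κ A), h, Matrix.mul_one,
        add_neg_cancel]
    · rw [Matrix.zero_mul, Matrix.mul_zero, add_zero]
    · rw [Matrix.zero_mul, zero_add]
      exact Units.inv_mul L

/-- the part with `u` of the permuted linearisation -/
theorem SHF_b {B : Type} [Ring B] {ι : Type} [Fintype ι] [DecidableEq ι] (e : ℕ)
    (x : ℕ → Matrix ι ι B) :
    (((SHF_s B (SHF_p e ι) : Matrix _ _ B) * bL (e + 1 + 1) (shx x)).submatrix
      (SHF_f (e + 1) ι).symm (SHF_f (e + 1) ι).symm) =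
    Matrix.fromBlocks (-1) 0 0 (bL (e + 1) x) := by
  ext p q
  rw [Matrix.submatrix_apply, SHF_s_mul]
  rcases p with a | ⟨i, a⟩
  · rcases q with b | ⟨j, b⟩
    · rw [Matrix.fromBlocks_apply₁₁, Matrix.neg_apply, Matrix.one_apply]
      change bL (e + 1 + 1) (shx x) (Equiv.swap (0 : Fin (e + 2)) 1 0, a) (0, b) = _
      rw [Equiv.swap_apply_left]
      unfold bL
      rw [Matrix.of_apply]
      by_cases hab : a = b
      · simp [hab]
      · simp [hab]
    · rw [Matrix.fromBlocks_apply₁₂, Matrix.zero_apply]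
      change bL (e + 1 + 1) (shx x) (Equiv.swap (0 : Fin (e + 2)) 1 0, a) (j.succ, b) = _
      rw [Equiv.swap_apply_left]
      unfold bL
      rw [Matrix.of_apply]
      simp
  · refine Fin.cases ?_ (fun i => ?_) i
    · rcases q with b | ⟨j, b⟩
      · rw [Matrix.fromBlocks_apply₂₁, Matrix.zero_apply]
        change bL (e + 1 + 1) (shx x) (Equiv.swap (0 : Fin (e + 2)) 1 1, a) (0, b) = _
        rw [Equiv.swap_apply_right]
        unfold bL
        rw [Matrix.of_apply]
        simp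
      · rw [Matrix.fromBlocks_apply₂₂]
        change bL (e + 1 + 1) (shx x) (Equiv.swap (0 : Fin (e + 2)) 1 1, a) (j.succ, b) = _
        rw [Equiv.swap_apply_right]
        unfold bL
        rw [Matrix.of_apply, Matrix.of_apply]
        simp [shx]
    · have hs : Equiv.swap (0 : Fin (e + 2)) 1 i.succ.succ = i.succ.succ := by
        refine Equiv.swap_apply_of_ne_of_ne ?_ ?_
        · exact Fin.succ_ne_zero _
        · intro h
          have := congrArg Fin.val h
          simp at this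
      rcases q with b | ⟨j, b⟩
      · rw [Matrix.fromBlocks_apply₂₁, Matrix.zero_apply]
        change bL (e + 1 + 1) (shx x) (Equiv.swap (0 : Fin (e + 2)) 1 i.succ.succ, a) (0, b) = _
        rw [hs]
        unfold bL
        rw [Matrix.of_apply]
        simp
      · rw [Matrix.fromBlocks_apply₂₂]
        change bL (e + 1 + 1) (shx x) (Equiv.swap (0 : Fin (e + 2)) 1 i.succ.succ, a)
          (j.succ, b) = _
        rw [hs]
        unfold bL
        rw [Matrix.of_apply, Matrix.of_apply]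
        simp

/-- the constant part of the permuted linearisation -/
theorem SHF_a {B : Type} [Ring B] {ι : Type} [Fintype ι] [DecidableEq ι] (e : ℕ)
    (x : ℕ → Matrix ι ι B) :
    (((SHF_s B (SHF_p e ι) : Matrix _ _ B) * aL (e + 1 + 1) (shx x)).submatrix
      (SHF_f (e + 1) ι).symm (SHF_f (e + 1) ι).symm) =
    Matrix.fromBlocks 0 (SHF_C B (e + 1) ι) 0 (aL (e + 1) x) := by
  ext p q
  rw [Matrix.submatrix_apply, SHF_s_mul]
  rcases p with a | ⟨i, a⟩
  · rcases q with b | ⟨j, b⟩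
    · rw [Matrix.fromBlocks_apply₁₁, Matrix.zero_apply]
      change aL (e + 1 + 1) (shx x) (Equiv.swap (0 : Fin (e + 2)) 1 0, a) (0, b) = _
      rw [Equiv.swap_apply_left]
      unfold aL
      rw [Matrix.of_apply]
      simp
    · rw [Matrix.fromBlocks_apply₁₂]
      change aL (e + 1 + 1) (shx x) (Equiv.swap (0 : Fin (e + 2)) 1 0, a) (j.succ, b) = _
      rw [Equiv.swap_apply_left]
      unfold aL SHF_C
      rw [Matrix.of_apply, Matrix.of_apply]
      have h1 : ((1 : Fin (e + 1 + 1)), a) = (j.succ, b) ↔ (j.val = 0 ∧ a = b) := by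
        rw [Prod.mk.injEq, Fin.ext_iff]
        simp
      simp only [h1]
      simp
  · refine Fin.cases ?_ (fun i => ?_) i
    · rcases q with b | ⟨j, b⟩
      · rw [Matrix.fromBlocks_apply₂₁, Matrix.zero_apply]
        change aL (e + 1 + 1) (shx x) (Equiv.swap (0 : Fin (e + 2)) 1 1, a) (0, b) = _
        rw [Equiv.swap_apply_right]
        unfold aL
        rw [Matrix.of_apply]
        simp [shx]
      · rw [Matrix.fromBlocks_apply₂₂]
        change aL (e + 1 + 1) (shx x) (Equiv.swap (0 : Fin (e + 2)) 1 1, a) (j.succ, b) = _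
        rw [Equiv.swap_apply_right]
        unfold aL
        rw [Matrix.of_apply, Matrix.of_apply]
        simp [shx]
    · have hs : Equiv.swap (0 : Fin (e + 2)) 1 i.succ.succ = i.succ.succ := by
        refine Equiv.swap_apply_of_ne_of_ne ?_ ?_
        · exact Fin.succ_ne_zero _
        · intro h
          have := congrArg Fin.val h
          simp at this
      rcases q with b | ⟨j, b⟩
      · rw [Matrix.fromBlocks_apply₂₁, Matrix.zero_apply]
        change aL (e + 1 + 1) (shx x) (Equiv.swap (0 : Fin (e + 2)) 1 i.succ.succ, a) (0, b) = _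
        rw [hs]
        unfold aL
        rw [Matrix.of_apply]
        simp
      · rw [Matrix.fromBlocks_apply₂₂]
        change aL (e + 1 + 1) (shx x) (Equiv.swap (0 : Fin (e + 2)) 1 i.succ.succ, a)
          (j.succ, b) = _
        rw [hs]
        unfold aL
        rw [Matrix.of_apply, Matrix.of_apply]
        simp

/-- the coordinate as a complex number, continuous -/
noncomputable def SHF_path {B : Type} [NormedRing B] [NormedAlgebra ℂ B] (ι κ : Type) [Fintype ι]
    [DecidableEq ι] [Fintype κ] [DecidableEq κ] (C : Matrix ι κ B) (a : Matrix κ κ B) :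
    C(unitInterval, Matrix (ι ⊕ κ) (ι ⊕ κ) B) where
  toFun t := Matrix.fromBlocks 0 ((((t : ℝ) : ℂ)) • C) 0 a
  continuous_toFun := by
    have h1 : Continuous fun t : unitInterval => (((t : ℝ) : ℂ)) • C := by
      fun_prop
    exact Continuous.matrix_fromBlocks continuous_const h1 continuous_const continuous_const

/-- left multiplication by a constant unit keeps the matrix linear -/
theorem SHF_lin1 {B A : Type} [NormedRing B] [NormedAlgebra ℂ B] [NormedRing A] [NormedAlgebra ℂ A]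
    (io : B →ₐ[ℂ] A) (u : Aˣ) {κ : Type} [Fintype κ] [DecidableEq κ] (a b : Matrix κ κ B)
    (L : (Matrix κ κ A)ˣ) (σ : (Matrix κ κ B)ˣ) (h : IsLin io u a b L) :
    IsLin io u ((σ : Matrix κ κ B) * a) ((σ : Matrix κ κ B) * b) (umap io.toRingHom σ * L) := by
  have h1 : (L : Matrix κ κ A) = a.map io + b.map io * (uM κ u : Matrix κ κ A) := h
  have h2 : ((umap io.toRingHom σ : (Matrix κ κ A)ˣ) : Matrix κ κ A) = (σ : Matrix κ κ B).map io := rfl
  change ((umap io.toRingHom σ : (Matrix κ κ A)ˣ) : Matrix κ κ A) * (L : Matrix κ κ A) =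
    ((σ : Matrix κ κ B) * a).map io + ((σ : Matrix κ κ B) * b).map io * (uM κ u : Matrix κ κ A)
  have h3 : ((σ : Matrix κ κ B) * a).map io = (σ : Matrix κ κ B).map io * a.map io :=
    Matrix.map_mul (f := io.toRingHom)
  have h4 : ((σ : Matrix κ κ B) * b).map io = (σ : Matrix κ κ B).map io * b.map io :=
    Matrix.map_mul (f := io.toRingHom)
  rw [h1, h2, h3, h4, mul_add, Matrix.mul_assoc]

/-- renaming keeps the matrix linear -/
theorem SHF_lin2 {B A : Type} [NormedRing B] [NormedAlgebra ℂ B] [NormedRing A] [NormedAlgebra ℂ A]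
    (io : B →ₐ[ℂ] A) (u : Aˣ) {κ κ' : Type} [Fintype κ] [DecidableEq κ] [Fintype κ']
    [DecidableEq κ'] (f : κ ≃ κ') (a b : Matrix κ κ B)
    (L : (Matrix κ κ A)ˣ) (h : IsLin io u a b L) :
    IsLin io u (a.submatrix f.symm f.symm) (b.submatrix f.symm f.symm) (rix f L) := by
  have h2 : ((rix f L : (Matrix κ' κ' A)ˣ) : Matrix κ' κ' A) =
      (L : Matrix κ κ A).submatrix f.symm f.symm := rfl
  change ((rix f L : (Matrix κ' κ' A)ˣ) : Matrix κ' κ' A) = _
  rw [h2]
  ext p q
  rw [Matrix.submatrix_apply, SHF_ent io u a b L h, Matrix.add_apply, SHF_mul_uM]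
  rfl

/-- two linear matrices with the same coefficients are equal -/
theorem SHF_linu {B A : Type} [NormedRing B] [NormedAlgebra ℂ B] [NormedRing A] [NormedAlgebra ℂ A]
    (io : B →ₐ[ℂ] A) (u : Aˣ) {κ : Type} [Fintype κ] [DecidableEq κ] (a b : Matrix κ κ B)
    (L L' : (Matrix κ κ A)ˣ) (h : IsLin io u a b L) (h' : IsLin io u a b L') : L = L' :=
  Units.ext ((show (L : Matrix κ κ A) = _ from h).trans (show (L' : Matrix κ κ A) = _ from h').symm)

/-- the block triangular matrix is linear -/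
theorem SHF_lin3 {B A : Type} [NormedRing B] [NormedAlgebra ℂ B] [NormedRing A] [NormedAlgebra ℂ A]
    (io : B →ₐ[ℂ] A) (u : Aˣ) {ι κ : Type} [Fintype ι] [DecidableEq ι] [Fintype κ] [DecidableEq κ]
    (a b : Matrix κ κ B) (C : Matrix ι κ B) (C' : Matrix ι κ A) (hC : ∀ i j, C' i j = io (C i j))
    (L : (Matrix κ κ A)ˣ) (h : IsLin io u a b L) :
    IsLin io u (Matrix.fromBlocks 0 C 0 a) (Matrix.fromBlocks (-1) 0 0 b)
      (SHF_K (-(uM ι u)) C' L) := by
  have h2 : ((SHF_K (-(uM ι u)) C' L : (Matrix (ι ⊕ κ) (ι ⊕ κ) A)ˣ) : Matrix (ι ⊕ κ) (ι ⊕ κ) A) =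
      Matrix.fromBlocks (-(uM ι u : Matrix ι ι A)) C' 0 (L : Matrix κ κ A) := rfl
  change ((SHF_K (-(uM ι u)) C' L : (Matrix (ι ⊕ κ) (ι ⊕ κ) A)ˣ) :
    Matrix (ι ⊕ κ) (ι ⊕ κ) A) = _
  rw [h2]
  ext p q
  rw [Matrix.add_apply, SHF_mul_uM, Matrix.map_apply, Matrix.map_apply]
  rcases p with i | k
  · rcases q with j | l
    · rw [Matrix.fromBlocks_apply₁₁, Matrix.fromBlocks_apply₁₁, Matrix.fromBlocks_apply₁₁,
        Matrix.neg_apply, SHF_uM, Matrix.zero_apply, map_zero, zero_add, Matrix.neg_apply,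
        Matrix.one_apply]
      split_ifs
      · rw [map_neg, map_one, neg_one_mul]
      · rw [map_neg, map_zero, neg_zero, zero_mul]
    · rw [Matrix.fromBlocks_apply₁₂, Matrix.fromBlocks_apply₁₂, Matrix.fromBlocks_apply₁₂,
        Matrix.zero_apply, map_zero, zero_mul, add_zero]
      exact hC i l
  · rcases q with j | l
    · rw [Matrix.fromBlocks_apply₂₁, Matrix.fromBlocks_apply₂₁, Matrix.fromBlocks_apply₂₁,
        Matrix.zero_apply, Matrix.zero_apply, map_zero, zero_mul, add_zero]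
    · rw [Matrix.fromBlocks_apply₂₂, Matrix.fromBlocks_apply₂₂, Matrix.fromBlocks_apply₂₂]
      exact SHF_ent io u a b L h k l

theorem SHF (hQDM : QDM_stmt) (hQCL : QCL_stmt) (hQOP : QOP_stmt) (hK0B : K0B_stmt) (hK0E : K0E_stmt) : SHF_stmt := by
  intro B A _ _ _ _ _ _ al io u c hz ι _ _ d x hd L L' hL hL' h h'
  obtain ⟨e, rfl⟩ : ∃ e, d = e + 1 := ⟨d - 1, by omega⟩
  have hQ := hQOP B A al io u c hz
  -- the permuted and renamed matrix
  have q1 := (hQ (Fin (e + 1 + 1) × ι) (Fin (e + 1 + 1) × ι)).2.2.1 (bL (e + 1 + 1) (shx x))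
    (SHF_s B (SHF_p e ι)) L'
  have q2 := (hQ (Fin (e + 1 + 1) × ι) (ι ⊕ (Fin (e + 1) × ι))).2.1 (SHF_f (e + 1) ι)
      ((SHF_s B (SHF_p e ι) : Matrix _ _ B) * bL (e + 1 + 1) (shx x))
      (umap io.toRingHom (SHF_s B (SHF_p e ι)) * L')
  rw [q1, SHF_b] at q2
  have hl := SHF_lin2 io u (SHF_f (e + 1) ι) _ _ _ (SHF_lin1 io u _ _ L' (SHF_s B (SHF_p e ι)) hL')
  rw [SHF_a, SHF_b] at hl
  -- the path
  have hp : ∀ t : unitInterval, IsLin io u (SHF_path ι (Fin (e + 1) × ι) (SHF_C B (e + 1) ι) (aL (e + 1) x) t)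
      (Matrix.fromBlocks (-1) 0 0 (bL (e + 1) x))
      (SHF_K (-(uM ι u)) ((((t : ℝ) : ℂ)) • SHF_C A (e + 1) ι) L) := by
    intro t
    refine SHF_lin3 io u _ _ _ _ ?_ L hL
    intro i j
    rw [Matrix.smul_apply, Matrix.smul_apply, map_smul]
    congr 1
    unfold SHF_C
    rw [Matrix.of_apply, Matrix.of_apply]
    split_ifs
    · exact (map_one io).symm
    · exact (map_zero io).symm
  have e1 : SHF_path ι (Fin (e + 1) × ι) (SHF_C B (e + 1) ι) (aL (e + 1) x) 1 =
      Matrix.fromBlocks 0 (SHF_C B (e + 1) ι) 0 (aL (e + 1) x) := by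
    change Matrix.fromBlocks 0 (((((1 : unitInterval) : ℝ) : ℂ)) • SHF_C B (e + 1) ι) 0
      (aL (e + 1) x) = _
    rw [Set.Icc.coe_one, Complex.ofReal_one, one_smul]
  have hp1 := hp 1
  rw [e1] at hp1
  have hK1 := SHF_linu io u _ _ _ _ hp1 hl
  have hcl := hQCL B A al io u c hz (ι ⊕ (Fin (e + 1) × ι))
    (SHF_path ι (Fin (e + 1) × ι) (SHF_C B (e + 1) ι) (aL (e + 1) x))
    (ContinuousMap.const _ (Matrix.fromBlocks (-1) 0 0 (bL (e + 1) x)))
    (fun t => SHF_K (-(uM ι u)) ((((t : ℝ) : ℂ)) • SHF_C A (e + 1) ι) L) hp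
  have z0 := hQDM B A al io u c hz (ι ⊕ (Fin (e + 1) × ι)) _ _ _ (hp 0)
  have z1 := hQDM B A al io u c hz (ι ⊕ (Fin (e + 1) × ι)) _ _ _ (hp 1)
  have hcl' := hcl z0.qq z1.qq
  -- the start of the path
  have hK0 : ((SHF_K (-(uM ι u)) (((((0 : unitInterval) : ℝ) : ℂ)) • SHF_C A (e + 1) ι) L :
      (Matrix (ι ⊕ (Fin (e + 1) × ι)) (ι ⊕ (Fin (e + 1) × ι)) A)ˣ) :
      Matrix (ι ⊕ (Fin (e + 1) × ι)) (ι ⊕ (Fin (e + 1) × ι)) A) =
      Matrix.fromBlocks ((-(uM ι u) : (Matrix ι ι A)ˣ) : Matrix ι ι A) 0 0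
        (L : Matrix (Fin (e + 1) × ι) (Fin (e + 1) × ι) A) := by
    change Matrix.fromBlocks ((-(uM ι u) : (Matrix ι ι A)ˣ) : Matrix ι ι A)
      (((((0 : unitInterval) : ℝ) : ℂ)) • SHF_C A (e + 1) ι) 0
        (L : Matrix (Fin (e + 1) × ι) (Fin (e + 1) × ι) A) = _
    rw [Set.Icc.coe_zero, Complex.ofReal_zero, zero_smul]
  have q3 := (hQ ι (Fin (e + 1) × ι)).1 (-1) (bL (e + 1) x) (-(uM ι u)) L _ hK0
  have q4 := (hQ ι ι).2.2.2.2.2
  rw [q4] at q3
  have i1 : (1 : Matrix ι ι B) * 1 = 1 := one_mul 1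
  have i2 : Matrix.fromBlocks 1 0 0 (qL al c (bL (e + 1) x) L) *
      Matrix.fromBlocks (1 : Matrix ι ι B) 0 0 (qL al c (bL (e + 1) x) L) =
      Matrix.fromBlocks 1 0 0 (qL al c (bL (e + 1) x) L) := by
    rw [← q3]
    exact z0.qq
  have k1 := hK0B.1 B ι (Fin (e + 1) × ι) 1 (qL al c (bL (e + 1) x) L) i1 h i2
  have k2 := hK0B.2.2 B ι i1
  have k3 := SHF_congr _ _ z0.qq i2 q3
  have z2 := hQDM B A al io u c hz (ι ⊕ (Fin (e + 1) × ι)) _ _ _ hl
  have k4 := SHF_rename hK0E (SHF_f (e + 1) ι) _ h' _ z2.qq q2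
  have k5 : k0 _ z1.qq = k0 _ z2.qq := by
    refine SHF_congr _ _ _ _ ?_
    rw [hK1]
  rw [← k4, ← k5]
  refine (Eq.symm hcl').trans ?_
  refine k3.trans ?_
  rw [k1, k2, add_comm]

end Pool.Agent.PV
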