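import Pool.Agent.helper77.PV.SpecA

/-!
# Row pv:KT0 (MP_376aaf_an): `K₀(C(Ω))` for a compact totally disconnected space

Surjectivity: diagonal matrices of characteristic functions. Injectivity: an idempotent matrix of constant rank `m` is
equivalent to `1_m`, the equivalence is constructed locally and patched over clopen sets.
-/

set_option autoImplicit false

open scoped Matrix Topology
open Filter

namespace Pool.Agent.PV

open Pool.Agent.CZ

section

variable {Ω : Type} [TopologicalSpace Ω]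

/-- evaluation at a point -/
private noncomputable def KT0_ev (ω : Ω) : C(Ω, ℂ) →+* ℂ where
  toFun f := f ω
  map_one' := rfl
  map_mul' _ _ := rfl
  map_zero' := rfl
  map_add' _ _ := rfl

private theorem KT0_ext {ι κ : Type} {M N : Matrix ι κ C(Ω, ℂ)}
    (h : ∀ ω, M.map (KT0_ev ω) = N.map (KT0_ev ω)) : M = N := by
  ext i j ω
  exact congrFun (congrFun (h ω) i) j

private theorem KT0_one {ι : Type} [DecidableEq ι] (ω : Ω) :
    (1 : Matrix ι ι C(Ω, ℂ)).map (KT0_ev ω) = 1 :=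
  Matrix.map_one _ (map_zero _) (map_one _)

/-- constants -/
private noncomputable def KT0_c (z : ℂ) : C(Ω, ℂ) := ContinuousMap.const Ω z

private theorem KT0_cmap {ι κ : Type} (x : Matrix ι κ ℂ) (ω : Ω) :
    (x.map (KT0_c (Ω := Ω))).map (KT0_ev ω) = x := by
  ext i j
  rfl

/-- the glued function -/
private theorem KT0_pc {U : Set Ω} (hU : IsClopen U) (f g : C(Ω, ℂ)) :
    ∃ h : C(Ω, ℂ), (∀ ω ∈ U, h ω = f ω) ∧ ∀ ω, ω ∉ U → h ω = g ω := by
  classical
  refine ⟨⟨U.piecewise f g, ?_⟩, ?_, ?_⟩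
  · apply Continuous.piecewise _ f.continuous g.continuous
    intro a ha
    rw [hU.frontier_eq] at ha
    exact absurd ha (Set.notMem_empty a)
  · intro ω hω
    exact Set.piecewise_eq_of_mem _ _ _ hω
  · intro ω hω
    exact Set.piecewise_eq_of_notMem _ _ _ hω

private theorem KT0_pcM {ι κ : Type} {U : Set Ω} (hU : IsClopen U) (M N : Matrix ι κ C(Ω, ℂ)) :
    ∃ L : Matrix ι κ C(Ω, ℂ), (∀ ω ∈ U, L.map (KT0_ev ω) = M.map (KT0_ev ω)) ∧
      ∀ ω, ω ∉ U → L.map (KT0_ev ω) = N.map (KT0_ev ω) := by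
  choose h h1 h2 using fun i j => KT0_pc hU (M i j) (N i j)
  refine ⟨Matrix.of h, ?_, ?_⟩
  · intro ω hω
    ext i j
    exact h1 i j ω hω
  · intro ω hω
    ext i j
    exact h2 i j ω hω

/-- an idempotent complex matrix of trace zero vanishes -/
private theorem KT0_zero (hTRI : TRI_stmt) {n : ℕ} (e : Matrix (Fin n) (Fin n) ℂ) (he : e * e = e)
    (ht : e.trace = 0) : e = 0 := by
  obtain ⟨r, x, y, h1, h2, h3⟩ := hTRI (Fin n) e he
  rw [ht] at h1
  have hr : r = 0 := by exact_mod_cast h1.symm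
  subst hr
  rw [← h2]
  ext i j
  rw [Matrix.mul_apply]
  simp

/-- the linear algebra at one point -/
private theorem KT0_pt (hTRI : TRI_stmt) {n m : ℕ} (e : Matrix (Fin n) (Fin n) ℂ) (he : e * e = e)
    (ht : e.trace = m) (x : Matrix (Fin n) (Fin m) ℂ) (y : Matrix (Fin m) (Fin n) ℂ) (D : ℂ)
    (hD : D * (y * e * x).det = 1) :
    (e * x) * (D • ((y * e * x).adjugate * (y * e))) = e ∧
      (D • ((y * e * x).adjugate * (y * e))) * (e * x) = 1 := by
  have h1 : (D • ((y * e * x).adjugate * (y * e))) * (e * x) = 1 := by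
    rw [Matrix.smul_mul]
    have h2 : (y * e * x).adjugate * (y * e) * (e * x) = (y * e * x).adjugate * (y * e * x) := by
      rw [Matrix.mul_assoc, Matrix.mul_assoc y e (e * x), ← Matrix.mul_assoc e e x, he, ← Matrix.mul_assoc y e x]
    rw [h2, Matrix.adjugate_mul, smul_smul, hD, one_smul]
  refine ⟨?_, h1⟩
  set X := e * x with hX
  set Y := D • ((y * e * x).adjugate * (y * e)) with hY
  have heX : e * X = X := by rw [hX, ← Matrix.mul_assoc, he]
  have hYe : Y * e = Y := by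
    rw [hY, Matrix.smul_mul, Matrix.mul_assoc, Matrix.mul_assoc y e e, he]
  have hff : X * Y * (X * Y) = X * Y := by
    rw [Matrix.mul_assoc X Y (X * Y), ← Matrix.mul_assoc Y X Y, h1, Matrix.one_mul]
  have hef : e * (X * Y) = X * Y := by rw [← Matrix.mul_assoc, heX]
  have hfe : X * Y * e = X * Y := by rw [Matrix.mul_assoc, hYe]
  have hid : (e - X * Y) * (e - X * Y) = e - X * Y := by
    rw [Matrix.sub_mul, Matrix.mul_sub, Matrix.mul_sub, he, hef, hfe, hff]
    simp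
  have htr : (e - X * Y).trace = 0 := by
    rw [Matrix.trace_sub, Matrix.trace_mul_comm X Y, h1, ht, Matrix.trace_one, Fintype.card_fin, sub_self]
  have h0 := KT0_zero hTRI _ hid htr
  exact (sub_eq_zero.mp h0).symm

/-- the local construction -/
private theorem KT0_loc [CompactSpace Ω] [T2Space Ω] [TotallyDisconnectedSpace Ω] (hTRI : TRI_stmt) {n m : ℕ}
    (e : Matrix (Fin n) (Fin n) C(Ω, ℂ)) (he : e * e = e) (ht : ∀ ω, (e.map (KT0_ev ω)).trace = m) (ω₀ : Ω) :
    ∃ U : Set Ω, IsClopen U ∧ ω₀ ∈ U ∧ ∃ (X : Matrix (Fin n) (Fin m) C(Ω, ℂ)) (Y : Matrix (Fin m) (Fin n) C(Ω, ℂ)),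
      ∀ ω ∈ U, X.map (KT0_ev ω) * Y.map (KT0_ev ω) = e.map (KT0_ev ω) ∧
        Y.map (KT0_ev ω) * X.map (KT0_ev ω) = 1 := by
  have hev : ∀ ω, e.map (KT0_ev ω) * e.map (KT0_ev ω) = e.map (KT0_ev ω) := by
    intro ω
    rw [← Matrix.map_mul, he]
  obtain ⟨r, x₀, y₀, h1, h2, h3⟩ := hTRI (Fin n) (e.map (KT0_ev ω₀)) (hev ω₀)
  rw [ht ω₀] at h1
  have hr : m = r := by exact_mod_cast h1
  subst hr
  set x : Matrix (Fin n) (Fin m) C(Ω, ℂ) := x₀.map KT0_c with hx
  set y : Matrix (Fin m) (Fin n) C(Ω, ℂ) := y₀.map KT0_c with hy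
  set d : C(Ω, ℂ) := (y * e * x).det with hd
  have hdω : ∀ ω, d ω = (y₀ * e.map (KT0_ev ω) * x₀).det := by
    intro ω
    have h4 : KT0_ev ω d = ((y * e * x).map (KT0_ev ω)).det := by
      rw [hd]
      exact RingHom.map_det _ _
    have h5 : (y * e * x).map (KT0_ev ω) = y₀ * e.map (KT0_ev ω) * x₀ := by
      rw [Matrix.map_mul, Matrix.map_mul, hx, hy, KT0_cmap, KT0_cmap]
    rw [h5] at h4
    exact h4
  have hd0 : d ω₀ ≠ 0 := by
    rw [hdω, ← h2]
    have h6 : y₀ * (x₀ * y₀) * x₀ = 1 := by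
      rw [← Matrix.mul_assoc, h3, Matrix.one_mul, h3]
    rw [h6, Matrix.det_one]
    exact one_ne_zero
  have hopen : IsOpen {ω | d ω ≠ 0} := isOpen_ne_fun d.continuous continuous_const
  obtain ⟨U, hU, hmem, hsub⟩ := compact_exists_isClopen_in_isOpen hopen hd0
  obtain ⟨d', hd1, hd2⟩ := KT0_pc hU d 1
  have hne : ∀ ω, d' ω ≠ 0 := by
    intro ω
    by_cases hω : ω ∈ U
    · rw [hd1 ω hω]
      exact hsub hω
    · rw [hd2 ω hω]
      exact one_ne_zero
  set D : C(Ω, ℂ) := ⟨fun ω => (d' ω)⁻¹, d'.continuous.inv₀ hne⟩ with hD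
  refine ⟨U, hU, hmem, e * x, D • ((y * e * x).adjugate * (y * e)), ?_⟩
  intro ω hω
  have h7 : (e * x).map (KT0_ev ω) = e.map (KT0_ev ω) * x₀ := by
    rw [Matrix.map_mul, hx, KT0_cmap]
  have h5 : (y * e * x).map (KT0_ev ω) = y₀ * e.map (KT0_ev ω) * x₀ := by
    rw [Matrix.map_mul, Matrix.map_mul, hx, hy, KT0_cmap, KT0_cmap]
  have h9 : ((y * e * x).adjugate).map (KT0_ev ω) = (y₀ * e.map (KT0_ev ω) * x₀).adjugate := by
    have h10 := RingHom.map_adjugate (KT0_ev ω) (y * e * x)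
    rw [RingHom.mapMatrix_apply, RingHom.mapMatrix_apply, h5] at h10
    exact h10
  have h8 : (D • ((y * e * x).adjugate * (y * e))).map (KT0_ev ω) =
      (D ω) • ((y₀ * e.map (KT0_ev ω) * x₀).adjugate * (y₀ * e.map (KT0_ev ω))) := by
    have h11 : (D • ((y * e * x).adjugate * (y * e))).map (KT0_ev ω) =
        (D ω) • (((y * e * x).adjugate * (y * e)).map (KT0_ev ω)) := by
      ext i j
      rfl
    rw [h11, Matrix.map_mul, Matrix.map_mul, h9, hy, KT0_cmap]
  rw [h7, h8]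
  apply KT0_pt hTRI _ (hev ω) (ht ω)
  have h12 : D ω = (d' ω)⁻¹ := rfl
  rw [← hdω, h12, hd1 ω hω]
  exact inv_mul_cancel₀ (hsub hω)

/-- the global construction -/
private theorem KT0_glob [CompactSpace Ω] [T2Space Ω] [TotallyDisconnectedSpace Ω] (hTRI : TRI_stmt) {n m : ℕ}
    (e : Matrix (Fin n) (Fin n) C(Ω, ℂ)) (he : e * e = e) (ht : ∀ ω, (e.map (KT0_ev ω)).trace = m) :
    ∃ (X : Matrix (Fin n) (Fin m) C(Ω, ℂ)) (Y : Matrix (Fin m) (Fin n) C(Ω, ℂ)), X * Y = e ∧ Y * X = 1 := by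
  have key : ∃ U : Set Ω, IsClopen U ∧ Set.univ ⊆ U ∧ ∃ (X : Matrix (Fin n) (Fin m) C(Ω, ℂ))
      (Y : Matrix (Fin m) (Fin n) C(Ω, ℂ)), ∀ ω ∈ U, X.map (KT0_ev ω) * Y.map (KT0_ev ω) = e.map (KT0_ev ω) ∧
        Y.map (KT0_ev ω) * X.map (KT0_ev ω) = 1 := by
    refine isCompact_univ.induction_on (p := fun s => ∃ U : Set Ω, IsClopen U ∧ s ⊆ U ∧
      ∃ (X : Matrix (Fin n) (Fin m) C(Ω, ℂ)) (Y : Matrix (Fin m) (Fin n) C(Ω, ℂ)),
      ∀ ω ∈ U, X.map (KT0_ev ω) * Y.map (KT0_ev ω) = e.map (KT0_ev ω) ∧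
        Y.map (KT0_ev ω) * X.map (KT0_ev ω) = 1) ?_ ?_ ?_ ?_
    · exact ⟨∅, isClopen_empty, Set.Subset.rfl, 0, 0, fun ω hω => absurd hω (Set.notMem_empty ω)⟩
    · rintro s t hst ⟨U, hU, hs, h⟩
      exact ⟨U, hU, hst.trans hs, h⟩
    · rintro s t ⟨U, hU, hs, X, Y, h⟩ ⟨V, hV, ht', X', Y', h'⟩
      obtain ⟨X'', a1, a2⟩ := KT0_pcM hU X X'
      obtain ⟨Y'', b1, b2⟩ := KT0_pcM hU Y Y'
      refine ⟨U ∪ V, hU.union hV, Set.union_subset_union hs ht', X'', Y'', ?_⟩
      intro ω hω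
      by_cases hωU : ω ∈ U
      · rw [a1 ω hωU, b1 ω hωU]
        exact h ω hωU
      · rw [a2 ω hωU, b2 ω hωU]
        exact h' ω (hω.resolve_left hωU)
    · intro ω _
      obtain ⟨U, hU, hmem, h⟩ := KT0_loc hTRI e he ht ω
      exact ⟨U, mem_nhdsWithin_of_mem_nhds (hU.isOpen.mem_nhds hmem), U, hU, Set.Subset.rfl, h⟩
  obtain ⟨U, -, hsub, X, Y, h⟩ := key
  refine ⟨X, Y, ?_, ?_⟩
  · apply KT0_ext
    intro ω
    rw [Matrix.map_mul]
    exact (h ω (hsub (Set.mem_univ ω))).1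
  · apply KT0_ext
    intro ω
    rw [Matrix.map_mul, KT0_one]
    exact (h ω (hsub (Set.mem_univ ω))).2

end

theorem KT0 (_hRNK : RNK_stmt) (hTRI : TRI_stmt) (hK0E : K0E_stmt) (hK0B : K0B_stmt) (hK0G : K0G_stmt)
    (_hCLO : CZ.CLO_stmt) : KT0_stmt := by
  intro Ω _ _ _ _ R hR
  -- the values of `R` on the multiples of the unit class
  have hone : ∀ (m : ℕ) (ω : Ω), ((R (m • unitCls C(Ω, ℂ)) ω : ℤ) : ℂ) = m := by
    intro m ω
    have h1 := hK0B.2.2 C(Ω, ℂ) (Fin m) (one_mul 1)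
    rw [Fintype.card_fin] at h1
    rw [← h1, hR]
    simp [Matrix.one_apply_eq]
  constructor
  · rw [injective_iff_map_eq_zero]
    intro z hz
    obtain ⟨n, m, e, he, rfl⟩ := hK0G C(Ω, ℂ) z
    have ht : ∀ ω, (e.map (KT0_ev ω)).trace = m := by
      intro ω
      have h1 : R (k0 e he) = R (m • unitCls C(Ω, ℂ)) := by
        rw [map_sub, sub_eq_zero] at hz
        exact hz
      have h2 := hR (Fin n) e he ω
      rw [h1, hone] at h2
      exact h2.symm
    obtain ⟨X, Y, hXY, hYX⟩ := KT0_glob hTRI e he ht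
    have h3 := hK0E C(Ω, ℂ) (Fin n) (Fin m) e 1 he (one_mul 1) X Y hXY hYX
    rw [h3, hK0B.2.2 C(Ω, ℂ) (Fin m) (one_mul 1), Fintype.card_fin, sub_self]
  · intro f
    obtain ⟨N, hN⟩ : ∃ N : ℕ, ∀ ω, |f ω| ≤ N := by
      obtain ⟨C, hC⟩ := isCompact_univ.exists_bound_of_continuousOn (f := fun ω => f ω) f.continuous.continuousOn
      refine ⟨⌈C⌉₊, fun ω => ?_⟩
      have h1 := hC ω (Set.mem_univ ω)
      rw [Int.norm_eq_abs] at h1
      have h2 : ((|f ω| : ℤ) : ℝ) ≤ (⌈C⌉₊ : ℕ) := by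
        rw [Int.cast_abs]
        exact h1.trans (Nat.le_ceil C)
      exact_mod_cast h2
    set χ : Fin (2 * N) → C(Ω, ℂ) := fun k =>
      (⟨fun z : ℤ => if (k : ℤ) < z + N then (1 : ℂ) else 0, continuous_of_discreteTopology⟩ :
        C(ℤ, ℂ)).comp f with hχ
    have hχχ : ∀ k, χ k * χ k = χ k := by
      intro k
      ext ω
      show (if (k : ℤ) < f ω + N then (1 : ℂ) else 0) * (if (k : ℤ) < f ω + N then (1 : ℂ) else 0) =
        if (k : ℤ) < f ω + N then (1 : ℂ) else 0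
      split_ifs <;> simp
    have he : Matrix.diagonal χ * Matrix.diagonal χ = Matrix.diagonal χ := by
      rw [Matrix.diagonal_mul_diagonal]
      congr 1
      funext k
      exact hχχ k
    refine ⟨k0 (Matrix.diagonal χ) he - N • unitCls C(Ω, ℂ), ?_⟩
    ext ω
    have h1 := hR (Fin (2 * N)) (Matrix.diagonal χ) he ω
    have h2 := hone N ω
    have h3 : ∑ i : Fin (2 * N), (Matrix.diagonal χ i i) ω = ((f ω + N : ℤ) : ℂ) := by
      have hfn : 0 ≤ f ω + N ∧ f ω + N ≤ 2 * N := by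
        have := abs_le.mp (hN ω)
        omega
      obtain ⟨a, ha⟩ := Int.eq_ofNat_of_zero_le hfn.1
      have haN : a ≤ 2 * N := by omega
      calc ∑ i : Fin (2 * N), (Matrix.diagonal χ i i) ω
          = ∑ i : Fin (2 * N), (if (i : ℕ) < a then (1 : ℂ) else 0) := by
            refine Finset.sum_congr rfl (fun i _ => ?_)
            rw [Matrix.diagonal_apply_eq]
            show (if (i : ℤ) < f ω + N then (1 : ℂ) else 0) = _
            rw [ha]
            simp only [Nat.cast_lt]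
        _ = ∑ i ∈ Finset.range (2 * N), (if i < a then (1 : ℂ) else 0) :=
            Fin.sum_univ_eq_sum_range (fun i => if i < a then (1 : ℂ) else 0) (2 * N)
        _ = ((f ω + N : ℤ) : ℂ) := by
            rw [Finset.sum_boole, ha]
            have h4 : (Finset.range (2 * N)).filter (fun i => i < a) = Finset.range a := by
              ext i
              simp only [Finset.mem_filter, Finset.mem_range]
              omega
            rw [h4, Finset.card_range]
            simp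
    rw [h3] at h1
    have h5 : R (k0 (Matrix.diagonal χ) he) ω = f ω + N := by exact_mod_cast h1
    have h6 : R (N • unitCls C(Ω, ℂ)) ω = N := by exact_mod_cast h2
    rw [map_sub, ContinuousMap.sub_apply, h5, h6]
    ring

end Pool.Agent.PV
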